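import Pool.Agent.Y316.BT.Bridge

set_option autoImplicit false

open Filter Set Pool.Agent.Y316.BT

universe u v w

/-- The Bridge Theorem (Q1).  `S` is a cancellative monoid, `K` a compact abelian group (written
multiplicatively), `γ` a left action of `S` on `K` by continuous endomorphisms and `F` a left
Folner net of `S`.  Then the topological entropy of `γ` equals the algebraic entropy of the dual
right action `χ · s = χ ∘ γ(s)` on the dual group `K →ₜ* Circle`.  Both entropies are computed
along the same arbitrary left Folner net, and the equality is proved for the upper and for the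
lower limits (by the known Fekete lemma for cancellative left amenable monoids they agree). -/
theorem Pool.Agent.Results.MP_699bc8_an.BridgeTheorem.result
    {S : Type v} [CancelMonoid S]
    {K : Type u} [CommGroup K] [TopologicalSpace K] [IsTopologicalGroup K]
    [CompactSpace K] [T2Space K]
    (γ : S → (K →ₜ* K)) (_ : γ 1 = ContinuousMonoidHom.id K)
    (_ : ∀ s t, γ (s * t) = (γ s).comp (γ t))
    {ι : Type w} [Preorder ι] [IsDirectedOrder ι] [Nonempty ι]
    (F : ι → Finset S) (hF : IsLeftFolner F) :
    (⨆ 𝒰 : OpenCover K, limsup (fun i => topRatio (fun s => ⇑(γ s)) 𝒰 (F i)) atTop) =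
        (⨆ X : {X : Set (K →ₜ* Circle) // X.Finite ∧ X.Nonempty},
          limsup (fun i => algRatio γ X (F i)) atTop) ∧
    (⨆ 𝒰 : OpenCover K, liminf (fun i => topRatio (fun s => ⇑(γ s)) 𝒰 (F i)) atTop) =
        (⨆ X : {X : Set (K →ₜ* Circle) // X.Finite ∧ X.Nonempty},
          liminf (fun i => algRatio γ X (F i)) atTop) :=
  bridge γ atTop F hF.nonempty
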